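import Pool.Agent.K6.H86.SD.Main

/-!
# Fermat numbers: no exceptions, and the coprimality with `g ^ p - 1`
-/

set_option autoImplicit false

namespace Pool.Agent.K6.H86.SD

open Pool.Agent.K6.H50.SPF

theorem no_exc {m : ℕ} (hm : 2 ≤ m) (B : ℕ) : ¬ Exc (2 ^ 2 ^ m) B := by
  rintro (⟨l, h, hl, hlo, -, hh⟩ | ⟨-, k, hk⟩)
  · obtain ⟨j, -, rfl⟩ := (Nat.dvd_prime_pow Nat.prime_two).1
      (show h ∣ 2 ^ 2 ^ m by rw [← hh]; exact dvd_pow_self h hl.ne_zero)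
    rw [← pow_mul] at hh
    have h1 := Nat.pow_right_injective (le_refl 2) hh
    have h2 : l ∣ 2 ^ m := ⟨j, by rw [← h1]; ring⟩
    have h3 : l = 2 := (Nat.prime_dvd_prime_iff_eq hl Nat.prime_two).1 (hl.dvd_of_dvd_pow h2)
    rw [h3] at hlo
    exact absurd hlo (by decide)
  · obtain ⟨j, -, rfl⟩ := (Nat.dvd_prime_pow Nat.prime_two).1
      (show k ∣ 2 ^ 2 ^ m by rw [← hk]; exact Dvd.dvd.mul_left (dvd_pow_self k (by norm_num)) 4)
    have h1 : 2 ^ (2 + 4 * j) = 2 ^ 2 ^ m := by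
      rw [← hk, pow_add, mul_comm 4 j, pow_mul]
      norm_num
    have h2 := Nat.pow_right_injective (le_refl 2) h1
    obtain ⟨m', rfl⟩ := Nat.exists_eq_add_of_le hm
    rw [pow_add] at h2
    omega

theorem base_aux {m g N : ℕ} (hgN : g ^ N = 2 ^ 2 ^ m) : 2 ≤ g ∧ 1 ≤ N := by
  have h1 : 1 < 2 ^ 2 ^ m := Nat.one_lt_two_pow (by positivity)
  constructor
  · by_contra hcon
    have : g = 0 ∨ g = 1 := by omega
    rcases this with rfl | rfl
    · rcases Nat.eq_zero_or_pos N with rfl | hN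
      · rw [pow_zero] at hgN; omega
      · rw [zero_pow (by omega)] at hgN; omega
    · rw [one_pow] at hgN; omega
  · by_contra hcon
    have : N = 0 := by omega
    rw [this, pow_zero] at hgN
    omega

theorem prime_small {m : ℕ} (hm : m < 2) : Prime ((2 : ℤ) ^ 2 ^ m + 1) := by
  have hp : (2 ^ 2 ^ m + 1).Prime := by
    interval_cases m <;> norm_num
  exact_mod_cast Nat.prime_iff_prime_int.1 hp

theorem val_zero {g : ℕ} {S : Finset ℕ} {u : ℕ → ℤ} (hz : wt S u = 0) : val g S u = 0 := by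
  unfold val
  refine Finset.sum_eq_zero fun a ha => ?_
  have h1 : |u a| = 0 := by
    unfold wt at hz
    exact (Finset.sum_eq_zero_iff_of_nonneg (fun _ _ => abs_nonneg _)).1 hz a ha
  rw [abs_eq_zero.1 h1, zero_mul]

theorem gcd_fermat {m g N Q T : ℕ} {U : ℤ} (S : Finset ℕ) (u : ℕ → ℤ) (hQ : 1 ≤ Q)
    (hgN : g ^ N = 2 ^ 2 ^ m) (hS : S.card ≤ T) (hU : wt S u ≤ U) :
    (2 : ℤ) ^ 2 ^ m + 1 ∣ val g S u ∨
    (Int.gcd (val g S u) ((2 : ℤ) ^ 2 ^ m + 1) : ℤ) ^ Q ≤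
      (g * U) ^ (Q ^ T) * (2 ^ 2 ^ m) ^ 2 := by
  obtain ⟨hg, hN⟩ := base_aux hgN
  have hc : (2 : ℤ) ^ 2 ^ m = (g : ℤ) ^ N := by exact_mod_cast hgN.symm
  by_contra hcon
  rw [not_or] at hcon
  apply hcon.2
  have hwt1 : 1 ≤ wt S u := by
    by_contra hlt
    have hz : wt S u = 0 := by
      have := wt_nonneg S u
      omega
    apply hcon.1
    rw [val_zero hz]
    exact dvd_zero _
  have hg1 : (1 : ℤ) ≤ g := by exact_mod_cast (by omega : 1 ≤ g)
  have hgU1 : (1 : ℤ) ≤ g * wt S u := by nlinarith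
  have hgU2 : (g : ℤ) * wt S u ≤ g * U := mul_le_mul_of_nonneg_left hU (by linarith)
  have hmono : ((g : ℤ) * wt S u) ^ (Q ^ S.card) ≤ (g * U) ^ (Q ^ T) :=
    calc ((g : ℤ) * wt S u) ^ (Q ^ S.card) ≤ (g * U) ^ (Q ^ S.card) :=
          pow_le_pow_left₀ (by linarith) hgU2 _
      _ ≤ (g * U) ^ (Q ^ T) :=
          pow_le_pow_right₀ (by linarith) (Nat.pow_le_pow_right (by omega) hS)
  rcases Nat.lt_or_ge m 2 with hm | hm
  · have hp := prime_small hm
    have h1 : (Int.gcd (val g S u) ((2 : ℤ) ^ 2 ^ m + 1) : ℤ) = 1 := by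
      have h2 : IsCoprime ((2 : ℤ) ^ 2 ^ m + 1) (val g S u) :=
        (Irreducible.coprime_iff_not_dvd hp.irreducible).2 hcon.1
      rw [Int.gcd_comm]
      exact_mod_cast Int.isCoprime_iff_gcd_eq_one.1 h2
    rw [h1, one_pow]
    have h3 : (1 : ℤ) ≤ (g * U) ^ (Q ^ T) := one_le_pow₀ (by linarith)
    have h4 : (1 : ℤ) ≤ (2 ^ 2 ^ m) ^ 2 := one_le_pow₀ (one_le_pow₀ (by norm_num))
    nlinarith
  · have hn : ¬ (g : ℤ) ^ N + 1 ∣ val g S u := by
      rw [← hc]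
      exact hcon.1
    have hE : ¬ Exc (g ^ N) (Q ^ (S.card - 1)) := by
      rw [hgN]
      exact no_exc hm _
    have h := main hg hN hQ S u (Int.gcd (val g S u) ((g : ℤ) ^ N + 1) : ℤ) hE
      (Int.gcd_dvd_right _ _) (Int.gcd_dvd_left _ _) hn
    rw [abs_of_nonneg (by positivity)] at h
    rw [hc, ← pow_mul, mul_comm N 2]
    exact h.trans (mul_le_mul_of_nonneg_right hmono (by positivity))

/-- The order of `g` modulo the prime divisors of a Fermat number is `2 N`. -/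
theorem coprime_pow_sub_one {m g N p : ℕ} (hgN : g ^ N = 2 ^ 2 ^ m) (hp0 : 0 < p)
    (hp : p < 2 * N) : IsCoprime ((g : ℤ) ^ p - 1) ((2 : ℤ) ^ 2 ^ m + 1) := by
  obtain ⟨hg, hN⟩ := base_aux hgN
  rw [Int.isCoprime_iff_gcd_eq_one]
  by_contra hcon
  obtain ⟨q, hq, hqd⟩ := Nat.exists_prime_and_dvd hcon
  haveI : Fact q.Prime := ⟨hq⟩
  have h1 : (q : ℤ) ∣ (g : ℤ) ^ p - 1 :=
    (Int.natCast_dvd_natCast.2 hqd).trans (Int.gcd_dvd_left _ _)
  have h2 : (q : ℤ) ∣ (2 : ℤ) ^ 2 ^ m + 1 :=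
    (Int.natCast_dvd_natCast.2 hqd).trans (Int.gcd_dvd_right _ _)
  have e1 : (g : ZMod q) ^ p = 1 := by
    have := (ZMod.intCast_zmod_eq_zero_iff_dvd _ q).2 h1
    push_cast at this
    exact sub_eq_zero.1 this
  have e2 : (2 : ZMod q) ^ 2 ^ m = -1 := by
    have := (ZMod.intCast_zmod_eq_zero_iff_dvd _ q).2 h2
    push_cast at this
    exact eq_neg_of_add_eq_zero_left this
  have hq2 : (2 : ZMod q) ≠ 0 := by
    intro h0
    rw [h0, zero_pow (by positivity)] at e2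
    have : (1 : ZMod q) = 0 := by
      rw [← neg_neg (1 : ZMod q), ← e2, neg_zero]
    exact one_ne_zero this
  have hneg : (-1 : ZMod q) ≠ 1 := by
    intro h
    apply hq2
    have : (2 : ZMod q) = 1 - (-1) := by ring
    rw [this, h, sub_self]
  have hord : orderOf (2 : ZMod q) = 2 ^ (m + 1) := by
    apply orderOf_eq_prime_pow
    · rw [e2]
      exact hneg
    · rw [pow_succ, pow_mul, e2]
      ring
  obtain ⟨a, -, rfl⟩ := (Nat.dvd_prime_pow Nat.prime_two).1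
    (show g ∣ 2 ^ 2 ^ m by rw [← hgN]; exact dvd_pow_self g (by omega))
  have h3 : a * N = 2 ^ m := by
    rw [← pow_mul] at hgN
    exact Nat.pow_right_injective (le_refl 2) hgN
  have h4 : 2 ^ (m + 1) ∣ a * p := by
    rw [← hord]
    apply orderOf_dvd_of_pow_eq_one
    rw [pow_mul]
    push_cast at e1
    exact e1
  have ha : 0 < a := by
    rcases Nat.eq_zero_or_pos a with h | h
    · subst h
      simp at hg
    · exact h
  have h5 : a * (2 * N) ∣ a * p := by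
    have : a * (2 * N) = 2 ^ (m + 1) := by
      rw [pow_succ, ← h3]
      ring
    rw [this]
    exact h4
  have h6 : 2 * N ∣ p := Nat.dvd_of_mul_dvd_mul_left ha h5
  have := Nat.le_of_dvd hp0 h6
  omega

/-- A divisor of a product divides the product of the greatest common divisors. -/
theorem dvd_prod_gcd {ι : Type*} (F : ℤ) (x : ι → ℤ) (s : Finset ι) (a : ℤ)
    (h : F ∣ a * ∏ i ∈ s, x i) : F ∣ a * ∏ i ∈ s, (Int.gcd (x i) F : ℤ) := by
  classical
  induction s using Finset.induction_on generalizing a with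
  | empty => simpa using h
  | insert j s hj ih =>
    rw [Finset.prod_insert hj] at h ⊢
    have h1 : F ∣ x j * (a * ∏ i ∈ s, x i) := by
      rw [show x j * (a * ∏ i ∈ s, x i) = a * (x j * ∏ i ∈ s, x i) by ring]
      exact h
    have h2 : F ∣ (Int.gcd (x j) F : ℤ) * (a * ∏ i ∈ s, x i) := by
      have h3 : F ∣ gcd F (x j) * (a * ∏ i ∈ s, x i) := dvd_gcd_mul_of_dvd_mul h1
      have h4 : gcd F (x j) = (Int.gcd (x j) F : ℤ) := by
        rw [Int.gcd_comm, Int.coe_gcd]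
      rwa [h4] at h3
    have h5 := ih (a * (Int.gcd (x j) F : ℤ)) (by
      rw [show a * (Int.gcd (x j) F : ℤ) * ∏ i ∈ s, x i =
        (Int.gcd (x j) F : ℤ) * (a * ∏ i ∈ s, x i) by ring]
      exact h2)
    rw [show a * ((Int.gcd (x j) F : ℤ) * ∏ i ∈ s, (Int.gcd (x i) F : ℤ)) =
      a * (Int.gcd (x j) F : ℤ) * ∏ i ∈ s, (Int.gcd (x i) F : ℤ) by ring]
    exact h5

/-- One of the greatest common divisors is large. -/
theorem exists_large {K : ℕ} {F : ℤ} (hF : 1 < F) (x : Fin K → ℤ) (h : F ∣ ∏ i, x i) :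
    ∃ i, F ≤ (Int.gcd (x i) F : ℤ) ^ K := by
  have h1 : F ∣ ∏ i, (Int.gcd (x i) F : ℤ) := by
    have := dvd_prod_gcd F x Finset.univ 1 (by simpa using h)
    simpa using this
  have hpos : ∀ i, 0 < (Int.gcd (x i) F : ℤ) := by
    intro i
    have : 0 < Int.gcd (x i) F := Int.gcd_pos_of_ne_zero_right _ (by omega)
    exact_mod_cast this
  have h2 : F ≤ ∏ i, (Int.gcd (x i) F : ℤ) :=
    Int.le_of_dvd (Finset.prod_pos fun i _ => hpos i) h1
  rcases Nat.eq_zero_or_pos K with rfl | hK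
  · simp at h2
    omega
  have : Nonempty (Fin K) := ⟨⟨0, hK⟩⟩
  obtain ⟨j, hj⟩ := Finite.exists_max (fun i => (Int.gcd (x i) F : ℤ))
  refine ⟨j, h2.trans ?_⟩
  calc ∏ i, (Int.gcd (x i) F : ℤ) ≤ ∏ _i : Fin K, (Int.gcd (x j) F : ℤ) :=
        Finset.prod_le_prod (fun i _ => (hpos i).le) (fun i _ => hj i)
    _ = (Int.gcd (x j) F : ℤ) ^ K := by simp

/-- From the bound for the greatest common divisor to Euclid's lemma. -/
theorem euclid_of {m g K T : ℕ} {U : ℤ} {D : ℤ} (hD0 : 0 ≤ D)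
    (h : (2 : ℤ) ^ 2 ^ m + 1 ≤ D ^ K)
    (hle : D ^ (2 * K + 1) ≤ (g * U) ^ ((2 * K + 1) ^ T) * (2 ^ 2 ^ m) ^ 2) :
    (2 : ℤ) ^ 2 ^ m ≤ (g * U) ^ (K * (2 * K + 1) ^ T) := by
  obtain ⟨A, hA⟩ : ∃ A : ℤ, A = (2 : ℤ) ^ 2 ^ m := ⟨_, rfl⟩
  have hA0 : 0 < A := by rw [hA]; positivity
  rw [← hA] at h hle ⊢
  have h5 : A ^ (2 * K + 1) ≤ (g * U) ^ (K * (2 * K + 1) ^ T) * A ^ (2 * K) := by
    calc A ^ (2 * K + 1) ≤ (D ^ K) ^ (2 * K + 1) :=
          pow_le_pow_left₀ hA0.le (by linarith) _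
      _ = (D ^ (2 * K + 1)) ^ K := by rw [← pow_mul, ← pow_mul, mul_comm]
      _ ≤ ((g * U) ^ ((2 * K + 1) ^ T) * A ^ 2) ^ K :=
          pow_le_pow_left₀ (by positivity) hle _
      _ = (g * U) ^ (K * (2 * K + 1) ^ T) * A ^ (2 * K) := by
          rw [mul_pow, ← pow_mul, ← pow_mul, mul_comm K]
  rw [pow_succ'] at h5
  exact le_of_mul_le_mul_right h5 (by positivity)

end Pool.Agent.K6.H86.SD
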