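import Mathlib

/-!
# Common divisors of a sparse number and `A + 1`: the norm argument
-/

set_option autoImplicit false

namespace Pool.Agent.K6.H86.SD

open Polynomial

/-- Products of elements `P x = a x D + d c` of the ring of integers. -/
theorem prod_aux (d : ℂ) (hd : IsIntegral ℤ d) (s : Multiset ℂ) (P a : ℂ → ℂ)
    (h : ∀ x ∈ s, IsIntegral ℤ (a x) ∧
      ∃ D, IsIntegral ℤ D ∧ ∃ c, IsIntegral ℤ c ∧ P x = a x * D + d * c) :
    ∃ D, IsIntegral ℤ D ∧ ∃ c, IsIntegral ℤ c ∧ (s.map P).prod = (s.map a).prod * D + d * c ∧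
      IsIntegral ℤ (s.map a).prod := by
  induction s using Multiset.induction_on with
  | empty => exact ⟨1, isIntegral_one, 0, isIntegral_zero, by simp, by simpa using isIntegral_one⟩
  | cons x s ih =>
    obtain ⟨D', hD', c', hc', h', ha'⟩ := ih (fun y hy => h y (Multiset.mem_cons_of_mem hy))
    obtain ⟨hax, D, hD, c, hc, hx⟩ := h x (Multiset.mem_cons_self x s)
    refine ⟨D * D', hD.mul hD', c * ((s.map a).prod * D' + d * c') + a x * D * c', ?_, ?_, ?_⟩
    · exact (hc.mul ((ha'.mul hD').add (hd.mul hc'))).add ((hax.mul hD).mul hc')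
    · simp only [Multiset.map_cons, Multiset.prod_cons]
      rw [hx, h']
      ring
    · simp only [Multiset.map_cons, Multiset.prod_cons]
      exact hax.mul ha'

theorem norm_prod_le (s : Multiset ℂ) (P : ℂ → ℂ) (B : ℝ) (hB : 0 ≤ B)
    (h : ∀ x ∈ s, ‖P x‖ ≤ B) : ‖(s.map P).prod‖ ≤ B ^ s.card := by
  induction s using Multiset.induction_on with
  | empty => simp
  | cons x s ih =>
    simp only [Multiset.map_cons, Multiset.prod_cons, Multiset.card_cons]
    rw [norm_mul, pow_succ']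
    exact mul_le_mul (h x (Multiset.mem_cons_self x s))
      (ih (fun y hy => h y (Multiset.mem_cons_of_mem hy))) (norm_nonneg _) hB

/-- A rational number which is `d` times an algebraic integer is `d` times an integer. -/
theorem int_of (r : ℚ) (d : ℤ) (hd : d ≠ 0) (z : ℂ) (hz : IsIntegral ℤ z)
    (h : (r : ℂ) = d * z) : ∃ n : ℤ, r = d * n := by
  have hdC : (d : ℂ) ≠ 0 := by exact_mod_cast hd
  have h1 : z = algebraMap ℚ ℂ (r / d) := by
    rw [eq_ratCast]
    push_cast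
    rw [eq_div_iff hdC, h, mul_comm]
  rw [h1] at hz
  have h2 : IsIntegral ℤ (r / d : ℚ) := (isIntegral_algebraMap_iff (algebraMap ℚ ℂ).injective).1 hz
  obtain ⟨n, hn⟩ := IsIntegrallyClosed.isIntegral_iff.1 h2
  refine ⟨n, ?_⟩
  have hdQ : (d : ℚ) ≠ 0 := by exact_mod_cast hd
  have h3 : (n : ℚ) = r / d := by simpa using hn
  rw [h3]
  field_simp

theorem core {g N q w M : ℕ} (hg : 2 ≤ g) (hq : q ≠ 0) {ι : Type*} (S : Finset ι)
    (e α : ι → ℕ) (c : ι → ℤ) (d : ℤ)
    (hirr : Irreducible (X ^ q - C (-(1 / ((g ^ N : ℕ) : ℚ))) : ℚ[X]))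
    (hα : ∀ i ∈ S, α i ≤ q)
    (h1 : ∀ i ∈ S, N * α i ≤ q * (w + e i))
    (h2 : ∀ i ∈ S, q * (w + e i) ≤ M + N * α i)
    (hd1 : d ∣ (g : ℤ) ^ N + 1) (hd2 : d ∣ ∑ i ∈ S, c i * (g : ℤ) ^ (w + e i)) :
    ((g : ℤ) ^ N + 1 ∣ ∑ i ∈ S, c i * (g : ℤ) ^ (w + e i)) ∨
      |d| ≤ (∑ i ∈ S, |c i|) ^ q * (g : ℤ) ^ M := by
  classical
  have hg0 : 0 < g := by omega
  have hgR : (0 : ℝ) < g := by exact_mod_cast hg0
  have hgQ : (0 : ℚ) < g := by exact_mod_cast hg0
  have hgC : (g : ℂ) ≠ 0 := by exact_mod_cast hg0.ne'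
  have hF0 : (g : ℤ) ^ N + 1 ≠ 0 := by positivity
  have hd0 : d ≠ 0 := by
    rintro rfl
    exact hF0 (zero_dvd_iff.1 hd1)
  set p : ℚ[X] := X ^ q - C (-(1 / ((g ^ N : ℕ) : ℚ))) with hp
  have hpm : p.Monic := monic_X_pow_sub_C _ hq
  have hpd : p.natDegree = q := natDegree_X_pow_sub_C
  set f : ℚ[X] := ∑ i ∈ S, C (((c i * (g : ℤ) ^ (w + e i) : ℤ) : ℚ)) * X ^ α i with hf
  have hfd : f.natDegree ≤ q := by
    refine natDegree_sum_le_of_forall_le _ _ fun i hi => ?_
    exact (natDegree_C_mul_X_pow_le _ _).trans (hα i hi)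
  by_cases hdvd : p ∣ f
  · left
    obtain ⟨h, hh⟩ := hdvd
    have hh0 : h.natDegree = 0 := by
      rcases eq_or_ne h 0 with rfl | hne
      · simp
      · have := hpm.natDegree_mul' hne
        rw [← hh, hpd] at this
        omega
    obtain ⟨c0, rfl⟩ := natDegree_eq_zero.1 hh0
    have e0 : f.eval 0 = ((∑ i ∈ S with α i = 0, c i * (g : ℤ) ^ (w + e i) : ℤ) : ℚ) := by
      rw [hf, eval_finsetSum, Finset.sum_filter]
      push_cast
      refine Finset.sum_congr rfl fun i _ => ?_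
      simp only [eval_mul, eval_C, eval_pow, eval_X]
      by_cases hi : α i = 0
      · simp [hi]
      · simp [hi]
    have e1 : f.eval 1 = ((∑ i ∈ S, c i * (g : ℤ) ^ (w + e i) : ℤ) : ℚ) := by
      rw [hf, eval_finsetSum]
      push_cast
      simp
    have f0 : f.eval 0 = (1 / ((g ^ N : ℕ) : ℚ)) * c0 := by
      rw [hh, hp]
      simp [hq]
    have f1 : f.eval 1 = (1 + 1 / ((g ^ N : ℕ) : ℚ)) * c0 := by
      rw [hh, hp]
      simp
    have hgN : (g : ℚ) ^ N ≠ 0 := by positivity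
    refine ⟨∑ i ∈ S with α i = 0, c i * (g : ℤ) ^ (w + e i), ?_⟩
    have key : ((∑ i ∈ S, c i * (g : ℤ) ^ (w + e i) : ℤ) : ℚ) =
        ((g : ℚ) ^ N + 1) * ((∑ i ∈ S with α i = 0, c i * (g : ℤ) ^ (w + e i) : ℤ) : ℚ) := by
      rw [← e1, ← e0, f0, f1]
      push_cast
      field_simp
    exact_mod_cast key
  · right
    have hcop : IsCoprime p f := (Irreducible.coprime_iff_not_dvd hirr).2 hdvd
    set R : ℚ := resultant p f with hR
    have hR0 : R ≠ 0 := resultant_ne_zero p f hcop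
    set pC : ℂ[X] := p.map (algebraMap ℚ ℂ) with hpC
    set fC : ℂ[X] := f.map (algebraMap ℚ ℂ) with hfC
    have hpCm : pC.Monic := hpm.map _
    have hpCs : pC.Splits := IsAlgClosed.splits pC
    have hpCd : pC.natDegree = q := by rw [hpC, natDegree_map, hpd]
    set s := pC.roots with hs
    have hcard : s.card = q := by
      rw [hs, ← hpCd]
      exact (hpCs.natDegree_eq_card_roots).symm
    have hRC : (R : ℂ) = (s.map fC.eval).prod := by
      have h3 := resultant_eq_prod_eval pC fC f.natDegree natDegree_map_le hpCs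
      rw [hpCm.leadingCoeff, one_pow, one_mul] at h3
      rw [← hs] at h3
      rw [← h3, hpC, natDegree_map, hfC, resultant_map_map, eq_ratCast]
    have hroot : ∀ x ∈ s, x ^ q = -(1 / (g : ℂ) ^ N) := by
      intro x hx
      have h3 := (mem_roots hpCm.ne_zero).1 hx
      rw [IsRoot.def, hpC, hp] at h3
      simp only [Polynomial.map_sub, Polynomial.map_pow, map_X, map_C, eval_sub, eval_pow,
        eval_X, eval_C, eq_ratCast] at h3
      rw [sub_eq_zero] at h3
      rw [h3]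
      push_cast
      ring
    have hfeval : ∀ x : ℂ, fC.eval x = ∑ i ∈ S, (c i : ℂ) * (g : ℂ) ^ (w + e i) * x ^ α i := by
      intro x
      rw [hfC, hf, Polynomial.map_sum, eval_finsetSum]
      refine Finset.sum_congr rfl fun i _ => ?_
      simp
    -- the integrality
    obtain ⟨θ, hθ⟩ := IsAlgClosed.exists_pow_nat_eq (g : ℂ) (Nat.pos_of_ne_zero hq)
    have hθi : IsIntegral ℤ θ := by
      refine IsIntegral.of_pow (Nat.pos_of_ne_zero hq) ?_
      rw [hθ]
      exact isIntegral_algebraMap (x := (g : ℤ))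
    have hθN : (θ ^ N) ^ q = (g : ℂ) ^ N := by rw [← pow_mul, mul_comm, pow_mul, hθ]
    obtain ⟨k, hk⟩ := hd2
    have hdi : IsIntegral ℤ (d : ℂ) := isIntegral_algebraMap (x := d)
    have hpt : ∀ x ∈ s, IsIntegral ℤ (θ ^ N * x - θ ^ N) ∧
        ∃ D, IsIntegral ℤ D ∧ ∃ c, IsIntegral ℤ c ∧
          fC.eval x = (θ ^ N * x - θ ^ N) * D + (d : ℂ) * c := by
      intro x hx
      have hxq := hroot x hx
      have hzi : IsIntegral ℤ (θ ^ N * x) := by
        refine IsIntegral.of_pow (Nat.pos_of_ne_zero hq) ?_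
        rw [mul_pow, hθN, hxq]
        have : (g : ℂ) ^ N * -(1 / (g : ℂ) ^ N) = -1 := by
          have : (g : ℂ) ^ N ≠ 0 := pow_ne_zero _ hgC
          field_simp
        rw [this]
        exact isIntegral_one.neg
      have hTi : IsIntegral ℤ (θ ^ N) := hθi.pow N
      refine ⟨hzi.sub hTi, ?_⟩
      -- work in the ring of algebraic integers
      let Θ : integralClosure ℤ ℂ := ⟨θ, hθi⟩
      let Z : integralClosure ℤ ℂ := ⟨θ ^ N * x, hzi⟩
      have hdv : Z - Θ ^ N ∣ ∑ i ∈ S, (c i : integralClosure ℤ ℂ) *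
          Θ ^ (q * (w + e i) - N * α i) * (Z ^ α i - (Θ ^ N) ^ α i) := by
        refine Finset.dvd_sum fun i _ => ?_
        exact Dvd.dvd.mul_left (sub_dvd_pow_sub_pow Z (Θ ^ N) (α i)) _
      obtain ⟨D, hD⟩ := hdv
      refine ⟨(D : ℂ), D.2, (k : ℂ), isIntegral_algebraMap (x := k), ?_⟩
      have hDC : ∑ i ∈ S, (c i : ℂ) * θ ^ (q * (w + e i) - N * α i) *
          ((θ ^ N * x) ^ α i - (θ ^ N) ^ α i) = (θ ^ N * x - θ ^ N) * (D : ℂ) := by
        have := congrArg (fun z : integralClosure ℤ ℂ => (z : ℂ)) hD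
        simpa [Θ, Z] using this
      have hkC : ∑ i ∈ S, (c i : ℂ) * (g : ℂ) ^ (w + e i) = (d : ℂ) * k := by
        exact_mod_cast congrArg (fun z : ℤ => (z : ℂ)) hk
      rw [← hDC, ← hkC, ← Finset.sum_add_distrib, hfeval]
      refine Finset.sum_congr rfl fun i hi => ?_
      have hgi : (g : ℂ) ^ (w + e i) = θ ^ (q * (w + e i) - N * α i) * (θ ^ N) ^ α i := by
        rw [← pow_mul, ← pow_add, Nat.sub_add_cancel (h1 i hi), pow_mul, hθ]
      rw [hgi, mul_pow]
      ring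
    obtain ⟨D, hD, c', hc', hprod, hai⟩ := prod_aux (d : ℂ) hdi s fC.eval
      (fun x => θ ^ N * x - θ ^ N) hpt
    have hprod1 : (s.map (fun x => θ ^ N * x - θ ^ N)).prod = (-1) ^ q * ((g : ℂ) ^ N + 1) := by
      have h3 : (s.map (fun x => θ ^ N * x - θ ^ N)).prod =
          (s.map (fun x => (-θ ^ N) * (1 - x))).prod := by
        congr 1
        refine Multiset.map_congr rfl fun x _ => ?_
        ring
      have h4 : (s.map (fun x => (1 : ℂ) - x)).prod = pC.eval 1 :=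
        (hpCs.eval_eq_prod_roots_of_monic hpCm 1).symm
      rw [h3, Multiset.prod_map_mul, h4, Multiset.map_const', Multiset.prod_replicate, hcard,
        neg_pow, hθN, hpC, hp]
      simp only [Polynomial.map_sub, Polynomial.map_pow, map_X, map_C, eval_sub, eval_pow,
        eval_X, eval_C, eq_ratCast, one_pow]
      push_cast
      have : (g : ℂ) ^ N ≠ 0 := pow_ne_zero _ hgC
      field_simp
      ring
    obtain ⟨k', hk'⟩ := hd1
    have hk'C : (g : ℂ) ^ N + 1 = (d : ℂ) * k' := by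
      exact_mod_cast congrArg (fun z : ℤ => (z : ℂ)) hk'
    have hRz : (R : ℂ) = (d : ℂ) * ((-1) ^ q * (k' : ℂ) * D + c') := by
      rw [hRC, hprod, hprod1, hk'C]
      ring
    have hzi : IsIntegral ℤ ((-1) ^ q * (k' : ℂ) * D + c') :=
      (((isIntegral_one.neg.pow q).mul (isIntegral_algebraMap (x := k'))).mul hD).add hc'
    obtain ⟨n, hn⟩ := int_of R d hd0 _ hzi hRz
    have hn0 : n ≠ 0 := by
      rintro rfl
      apply hR0
      rw [hn]
      simp
    -- the upper bound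
    obtain ⟨G, hG0, hG⟩ : ∃ G : ℝ, 0 ≤ G ∧ G ^ q = (g : ℝ) ^ M :=
      ⟨((g : ℝ) ^ M) ^ ((q : ℝ)⁻¹), by positivity,
        Real.rpow_inv_natCast_pow (by positivity) hq⟩
    have hUB : ∀ x ∈ s, ‖fC.eval x‖ ≤ (∑ i ∈ S, |(c i : ℝ)|) * G := by
      intro x hx
      have hxq := hroot x hx
      have hnx : ‖x‖ ^ q = 1 / (g : ℝ) ^ N := by
        rw [← norm_pow, hxq, norm_neg, norm_div, norm_one, norm_pow]
        simp
      rw [hfeval, Finset.sum_mul]
      refine (norm_sum_le _ _).trans (Finset.sum_le_sum fun i hi => ?_)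
      rw [norm_mul, norm_mul, norm_pow, norm_pow]
      have h3 : ‖(c i : ℂ)‖ = |(c i : ℝ)| := by
        rw [Complex.norm_intCast]
      have h4 : ‖(g : ℂ)‖ = (g : ℝ) := by simp
      rw [h3, h4, mul_assoc]
      refine mul_le_mul_of_nonneg_left ?_ (abs_nonneg _)
      refine le_of_pow_le_pow_left₀ hq hG0 ?_
      rw [hG, mul_pow, ← pow_mul, ← pow_mul, mul_comm (α i) q, pow_mul ‖x‖, hnx, div_pow, one_pow,
        ← pow_mul, mul_one_div, div_le_iff₀ (by positivity), ← pow_add]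
      exact pow_le_pow_right₀ (by exact_mod_cast hg0) (by rw [mul_comm _ q]; exact h2 i hi)
    have hUB2 := norm_prod_le s fC.eval _
      (mul_nonneg (Finset.sum_nonneg fun i _ => abs_nonneg _) hG0) hUB
    rw [← hRC, hcard, mul_pow, hG] at hUB2
    have h5 : ‖(R : ℂ)‖ = |(d : ℝ)| * |(n : ℝ)| := by
      rw [hn]
      push_cast
      rw [norm_mul, Complex.norm_intCast, Complex.norm_intCast]
    have h6 : (1 : ℝ) ≤ |(n : ℝ)| := by
      have : (1 : ℤ) ≤ |n| := Int.one_le_abs hn0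
      exact_mod_cast this
    have h7 : |(d : ℝ)| ≤ (∑ i ∈ S, |(c i : ℝ)|) ^ q * (g : ℝ) ^ M := by
      refine le_trans ?_ hUB2
      rw [h5]
      exact le_mul_of_one_le_right (abs_nonneg _) h6
    exact_mod_cast h7

end Pool.Agent.K6.H86.SD
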