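import Pool.Agent.K6.H86.SD.Fermat
import Pool.Agent.R343.LT3

/-!
# Common divisors of a Fermat number and a compressible number
-/

set_option autoImplicit false

namespace Pool.Agent.K6.H86.SD

open Finset Pool.Agent.R343.LP Pool.Agent.R343.LI Pool.Agent.R343.LT Pool.Agent.K6.H50.SPF

/-- the denominator is prime to `F` -/
theorem den_cop {b : ℕ} (p : ℕ → ℕ) (S : ℕ → Prop) (F : ℤ) :
    ∀ z : ℕ, (∀ k < z, S k → 0 < p k → IsCoprime ((b : ℤ) ^ p k - 1) F) →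
      ∃ D : ℤ, IsCoprime D F ∧ den (b : ℚ) p S z = D := by
  intro z
  induction z with
  | zero =>
    intro _
    refine ⟨1, isCoprime_one_left, ?_⟩
    rw [den, Finset.range_zero, Finset.prod_empty]
    simp
  | succ z ih =>
    intro h
    obtain ⟨D, hD1, hD2⟩ := ih fun k hk => h k (by omega)
    have hden : den (b : ℚ) p S (z + 1) = den (b : ℚ) p S z * fac (b : ℚ) p S z := by
      unfold den
      rw [Finset.prod_range_succ]
    by_cases hS : S z ∧ 0 < p z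
    · have hf : fac (b : ℚ) p S z = (((b : ℤ) ^ p z - 1 : ℤ) : ℚ) := by
        unfold fac
        rw [if_pos hS]
        push_cast
        rfl
      refine ⟨D * ((b : ℤ) ^ p z - 1), hD1.mul_left (h z (by omega) hS.1 hS.2), ?_⟩
      rw [hden, hD2, hf]
      push_cast
      ring
    · refine ⟨D, hD1, ?_⟩
      rw [hden, hD2]
      unfold fac
      rw [if_neg hS, mul_one]

/-- one word, highest letter first -/
theorem word_down {b : ℕ} (z W E : ℕ) (B : ℤ) (hB : 0 ≤ B) (F : ℤ)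
    (hF : ∀ p, 0 < p → p < E → IsCoprime ((b : ℤ) ^ p - 1) F)
    (a : ℕ → ℤ) (N : ℕ) (c p : ℕ → ℕ) (hc0 : c 0 = 0) (hcz : c z = N)
    (hph : ∀ i < z, Ph a (c i) (c (i + 1)) (p i)) (ha : ∀ j < N, |a j| ≤ B)
    (hN : N ≤ W * E) :
    ∃ D : ℤ, IsCoprime D F ∧
      SpQ b ((2 * W + 6) ^ z) B (D * ∑ j ∈ range N, (b : ℤ) ^ (N - 1 - j) * a j) := by
  have hcmono : ∀ i < z, c i ≤ c (i + 1) := by
    intro i hi
    rcases hph i hi with h | ⟨h, _⟩
    · omega
    · exact h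
  have hcL : ∀ i ≤ z, c i ≤ N := by
    intro i hi
    rw [← hcz]
    have : ∀ j, i + j ≤ z → c i ≤ c (i + j) := by
      intro j
      induction j with
      | zero => intro _; exact le_rfl
      | succ j ih =>
        intro hj
        exact (ih (by omega)).trans (hcmono (i + j) (by omega))
    have h1 := this (z - i) (by omega)
    have h2 : i + (z - i) = z := by omega
    rwa [h2] at h1
  let S : ℕ → Prop := fun k => p k < E
  obtain ⟨D, hD1, hD2⟩ := den_cop p S F z fun k _ h h' => hF (p k) h' h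
  obtain ⟨-, hm⟩ := mixed (b : ℚ) (fun j => (a j : ℚ)) (lett B) ⟨0, by simpa using hB, by simp⟩
    (by
      rintro w ⟨n, hn, rfl⟩
      exact ⟨-n, by rwa [abs_neg], by push_cast; rfl⟩) c p hc0 z N W
    (fun j hj => ⟨a j, ha j hj, rfl⟩) hcL
    (fun i hi => by
      rcases hph i hi with h | ⟨h1, h2, h3, h4⟩
      · exact Or.inl h
      · exact Or.inr ⟨h1, h2, h3, fun j hj1 hj2 => by
          show ((a j : ℤ) : ℚ) = ((a (j - p i) : ℤ) : ℚ)
          rw [h4 j hj1 hj2]⟩) S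
    (fun i hi => by
      rcases Nat.lt_or_ge (p i) E with h | h
      · exact Or.inl h
      · exact Or.inr ((hcL (i + 1) (by omega)).trans (hN.trans (Nat.mul_le_mul_left _ h))))
    z le_rfl
  obtain ⟨l, v, hv, he⟩ := hm N (by rw [hcz])
  choose n hn1 hn2 using hv
  refine ⟨D, hD1, fun j => l j, n, hn1, ?_⟩
  rw [hD2, P_eq] at he
  simp only [smul_eq_mul] at he
  push_cast
  rw [he]
  refine Finset.sum_congr rfl fun j _ => ?_
  rw [hn2 j, mul_comm, zpow_natCast]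

/-- one word, lowest letter first -/
theorem word_up {b : ℕ} (hb : 2 ≤ b) (z W E : ℕ) (B : ℤ) (hB : 0 ≤ B) (F : ℤ)
    (hF : ∀ p, 0 < p → p < E → IsCoprime ((b : ℤ) ^ p - 1) F)
    (a : ℕ → ℤ) (N : ℕ) (c p : ℕ → ℕ) (hc0 : c 0 = 0) (hcz : c z = N)
    (hph : ∀ i < z, Ph a (c i) (c (i + 1)) (p i)) (ha : ∀ j < N, |a j| ≤ B)
    (hN : N ≤ W * E) :
    ∃ D : ℤ, IsCoprime D F ∧
      SpQ b ((2 * W + 6) ^ z) B (D * ∑ j ∈ range N, (b : ℤ) ^ j * a j) := by
  have hcmono : ∀ i < z, c i ≤ c (i + 1) := by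
    intro i hi
    rcases hph i hi with h | ⟨h, _⟩
    · omega
    · exact h
  have hcL : ∀ i ≤ z, c i ≤ N := by
    intro i hi
    rw [← hcz]
    have : ∀ j, i + j ≤ z → c i ≤ c (i + j) := by
      intro j
      induction j with
      | zero => intro _; exact le_rfl
      | succ j ih =>
        intro hj
        exact (ih (by omega)).trans (hcmono (i + j) (by omega))
    have h1 := this (z - i) (by omega)
    have h2 : i + (z - i) = z := by omega
    rwa [h2] at h1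
  let S : ℕ → Prop := fun k => p k < E
  obtain ⟨D, hD1, hD2⟩ := den_cop p S F z fun k _ h h' => hF (p k) h' h
  obtain ⟨-, hm⟩ := mixed ((b : ℚ)⁻¹) (fun j => (a j : ℚ)) (lett B) ⟨0, by simpa using hB, by simp⟩
    (by
      rintro w ⟨n, hn, rfl⟩
      exact ⟨-n, by rwa [abs_neg], by push_cast; rfl⟩) c p hc0 z N W
    (fun j hj => ⟨a j, ha j hj, rfl⟩) hcL
    (fun i hi => by
      rcases hph i hi with h | ⟨h1, h2, h3, h4⟩
      · exact Or.inl h
      · exact Or.inr ⟨h1, h2, h3, fun j hj1 hj2 => by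
          show ((a j : ℤ) : ℚ) = ((a (j - p i) : ℤ) : ℚ)
          rw [h4 j hj1 hj2]⟩) S
    (fun i hi => by
      rcases Nat.lt_or_ge (p i) E with h | h
      · exact Or.inl h
      · exact Or.inr ((hcL (i + 1) (by omega)).trans (hN.trans (Nat.mul_le_mul_left _ h))))
    z le_rfl
  obtain ⟨l, v, hv, he⟩ := hm N (by rw [hcz])
  choose n hn1 hn2 using hv
  obtain ⟨s, σ, hσ, hden⟩ := den_inv hb p S z
  have hb0 : (b : ℚ) ≠ 0 := by
    have : b ≠ 0 := by omega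
    exact_mod_cast this
  refine ⟨D, hD1, fun j => (N : ℤ) - 1 + s - l j, fun j => σ * n j, fun j => ?_, ?_⟩
  · rw [abs_mul]
    have h1 : |σ| = 1 := by rcases hσ with rfl | rfl <;> simp
    rw [h1, one_mul]
    exact hn1 j
  rw [P_eq] at he
  simp only [smul_eq_mul] at he
  have h2 : ∑ j ∈ range N, (b : ℚ) ^ j * (a j : ℚ) =
      (b : ℚ) ^ ((N : ℤ) - 1) * ∑ j ∈ range N, ((b : ℚ)⁻¹) ^ (N - 1 - j) * (a j : ℚ) := by
    rw [Finset.mul_sum]
    refine Finset.sum_congr rfl fun j hj => ?_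
    have hj' := Finset.mem_range.1 hj
    rw [← mul_assoc]
    congr 1
    rw [inv_pow, ← zpow_natCast, ← zpow_natCast, ← zpow_neg, ← zpow_add₀ hb0]
    congr 1
    push_cast [Nat.cast_sub (show j ≤ N - 1 by omega), Nat.cast_sub (show 1 ≤ N by omega)]
    ring
  have h3 : ((D * ∑ j ∈ range N, (b : ℤ) ^ j * a j : ℤ) : ℚ) =
      (D : ℚ) * ∑ j ∈ range N, (b : ℚ) ^ j * (a j : ℚ) := by
    push_cast
    rfl
  rw [h3, h2, ← hD2, ← hden]
  calc (σ : ℚ) * (b : ℚ) ^ s * den ((b : ℚ)⁻¹) p S z *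
        ((b : ℚ) ^ ((N : ℤ) - 1) * ∑ j ∈ range N, ((b : ℚ)⁻¹) ^ (N - 1 - j) * (a j : ℚ))
      = (σ : ℚ) * (b : ℚ) ^ s * (b : ℚ) ^ ((N : ℤ) - 1) * (den ((b : ℚ)⁻¹) p S z *
        ∑ j ∈ range N, ((b : ℚ)⁻¹) ^ (N - 1 - j) * (a j : ℚ)) := by ring
    _ = ∑ j, ((σ * n j : ℤ) : ℚ) * (b : ℚ) ^ ((N : ℤ) - 1 + s - l j) := by
      rw [he, Finset.mul_sum]
      refine Finset.sum_congr rfl fun j _ => ?_
      have e1 : (b : ℚ) ^ ((N : ℤ) - 1 + s - l j) =
          (b : ℚ) ^ ((N : ℤ) - 1) * (b : ℚ) ^ s * ((b : ℚ)⁻¹) ^ l j := by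
        rw [inv_pow, ← zpow_natCast (b : ℚ) s, ← zpow_natCast (b : ℚ) (l j), ← zpow_neg,
          ← zpow_add₀ hb0, ← zpow_add₀ hb0]
        congr 1
      rw [hn2 j, e1]
      push_cast
      ring

/-- sparse rational sums as sparse integers -/
theorem to_val {b T : ℕ} (hb : 2 ≤ b) {B y : ℤ} (h : SpQ b T B y) :
    ∃ (s : ℕ) (S : Finset ℕ) (u : ℕ → ℤ), S.card ≤ T ∧ wt S u ≤ T * B ∧
      val b S u = (b : ℤ) ^ s * y := by
  classical
  obtain ⟨l, v, hv, he⟩ := h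
  have hb0 : (b : ℚ) ≠ 0 := by
    have : b ≠ 0 := by omega
    exact_mod_cast this
  obtain ⟨s, hs⟩ : ∃ s : ℕ, ∀ j, 0 ≤ (s : ℤ) + l j := by
    refine ⟨∑ j, (l j).natAbs, fun j => ?_⟩
    have h1 : (l j).natAbs ≤ ∑ j, (l j).natAbs :=
      Finset.single_le_sum (f := fun j => (l j).natAbs) (fun _ _ => Nat.zero_le _)
        (Finset.mem_univ j)
    omega
  set f : Fin T → ℕ := fun j => ((s : ℤ) + l j).toNat with hf
  have hfz : ∀ j, ((f j : ℕ) : ℤ) = s + l j := fun j => Int.toNat_of_nonneg (hs j)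
  refine ⟨s, Finset.univ.image f, fun a => ∑ j with f j = a, v j, ?_, ?_, ?_⟩
  · exact Finset.card_image_le.trans (by simp)
  · unfold wt
    calc ∑ a ∈ Finset.univ.image f, |∑ j with f j = a, v j|
        ≤ ∑ a ∈ Finset.univ.image f, ∑ j with f j = a, |v j| :=
          Finset.sum_le_sum fun a _ => Finset.abs_sum_le_sum_abs _ _
      _ = ∑ j, |v j| := by
          rw [Finset.sum_fiberwise_of_maps_to (fun j _ => Finset.mem_image_of_mem f
            (Finset.mem_univ j))]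
      _ ≤ ∑ _j : Fin T, B := Finset.sum_le_sum fun j _ => hv j
      _ = T * B := by simp
  · unfold Pool.Agent.K6.H50.SPF.val
    have h1 : ∑ a ∈ Finset.univ.image f, (∑ j with f j = a, v j) * (b : ℤ) ^ a =
        ∑ j, v j * (b : ℤ) ^ f j := by
      rw [← Finset.sum_fiberwise_of_maps_to (g := f) (t := Finset.univ.image f)
        (fun j _ => Finset.mem_image_of_mem f (Finset.mem_univ j))]
      refine Finset.sum_congr rfl fun a _ => ?_
      rw [Finset.sum_mul]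
      refine Finset.sum_congr rfl fun j hj => ?_
      rw [(Finset.mem_filter.1 hj).2]
    rw [h1]
    have h2 : ((∑ j, v j * (b : ℤ) ^ f j : ℤ) : ℚ) = (((b : ℤ) ^ s * y : ℤ) : ℚ) := by
      push_cast
      rw [he, Finset.mul_sum]
      refine Finset.sum_congr rfl fun j _ => ?_
      have e1 : (b : ℚ) ^ f j = (b : ℚ) ^ s * (b : ℚ) ^ l j := by
        rw [← zpow_natCast (b : ℚ) (f j), hfz j, zpow_add₀ hb0, zpow_natCast]
      rw [e1]
      ring
    exact_mod_cast h2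

/-- `x` is the value of a word of length at most `L` with letters of absolute value at most `B`
and at most `z` phrases, highest or lowest letter first -/
def Compressible (g L : ℕ) (B : ℤ) (z : ℕ) (x : ℤ) : Prop :=
  ∃ (a : ℕ → ℤ) (l : ℕ), l ≤ L ∧ LZ a l z ∧ (∀ j < l, |a j| ≤ B) ∧
    (x = ∑ j ∈ range l, (g : ℤ) ^ (l - 1 - j) * a j ∨ x = ∑ j ∈ range l, (g : ℤ) ^ j * a j)

theorem lz_ph {a : ℕ → ℤ} {l z : ℕ} (h : LZ a l z) : ∃ c p : ℕ → ℕ, c 0 = 0 ∧ c z = l ∧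
    ∀ k < z, Ph a (c k) (c (k + 1)) (p k) := by
  obtain ⟨c, hc0, hcz, hph⟩ := h
  have : ∀ k, ∃ p, k < z → Ph a (c k) (c (k + 1)) p := by
    intro k
    by_cases hk : k < z
    · rcases hph k hk with h | ⟨h, p, hp0, hp1, hp2⟩
      · exact ⟨0, fun _ => Or.inl h⟩
      · exact ⟨p, fun _ => Or.inr ⟨h, hp0, hp1, hp2⟩⟩
    · exact ⟨0, fun h => absurd h hk⟩
  choose p hp using this
  exact ⟨c, p, hc0, hcz, hp⟩

/-- The main inequality for compressible numbers. -/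
theorem gcd_lz {m g N Q W z : ℕ} {B : ℤ} (hB : 0 ≤ B) (hQ : 1 ≤ Q) (hgN : g ^ N = 2 ^ 2 ^ m)
    {x : ℤ} (hx : Compressible g (W * (2 * N)) B z x) :
    (2 : ℤ) ^ 2 ^ m + 1 ∣ x ∨
    (Int.gcd x ((2 : ℤ) ^ 2 ^ m + 1) : ℤ) ^ Q ≤
      (g * (((2 * W + 6) ^ z : ℕ) * B)) ^ (Q ^ (2 * W + 6) ^ z) * (2 ^ 2 ^ m) ^ 2 := by
  obtain ⟨hg, hN⟩ := base_aux hgN
  obtain ⟨a, l, hl, hLZ, ha, hval⟩ := hx
  obtain ⟨c, p, hc0, hcz, hph⟩ := lz_ph hLZ
  have hcop : ∀ p, 0 < p → p < 2 * N → IsCoprime ((g : ℤ) ^ p - 1) ((2 : ℤ) ^ 2 ^ m + 1) :=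
    fun p h1 h2 => coprime_pow_sub_one hgN h1 h2
  obtain ⟨D, hD, hsp⟩ : ∃ D : ℤ, IsCoprime D ((2 : ℤ) ^ 2 ^ m + 1) ∧
      SpQ g ((2 * W + 6) ^ z) B (D * x) := by
    rcases hval with h | h
    · rw [h]
      exact word_down z W (2 * N) B hB _ hcop a l c p hc0 hcz hph ha hl
    · rw [h]
      exact word_up hg z W (2 * N) B hB _ hcop a l c p hc0 hcz hph ha hl
  obtain ⟨s, S, u, hS, hu, hv⟩ := to_val hg hsp
  have hc : (2 : ℤ) ^ 2 ^ m = (g : ℤ) ^ N := by exact_mod_cast hgN.symm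
  rcases gcd_fermat S u hQ hgN hS hu with h | h
  · left
    rw [hv] at h
    have h1 : (2 : ℤ) ^ 2 ^ m + 1 ∣ D * x := by
      refine IsCoprime.dvd_of_dvd_mul_left ?_ h
      rw [hc]
      exact isCoprime_pow hN s
    exact hD.symm.dvd_of_dvd_mul_left h1
  · right
    refine le_trans ?_ h
    have h1 : Int.gcd x ((2 : ℤ) ^ 2 ^ m + 1) ∣ Int.gcd (val g S u) ((2 : ℤ) ^ 2 ^ m + 1) := by
      apply Int.dvd_gcd
      · rw [hv]
        exact Dvd.dvd.mul_left (Dvd.dvd.mul_left (Int.gcd_dvd_left _ _) _) _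
      · exact Int.gcd_dvd_right _ _
    have h2 : Int.gcd x ((2 : ℤ) ^ 2 ^ m + 1) ≤ Int.gcd (val g S u) ((2 : ℤ) ^ 2 ^ m + 1) := by
      refine Nat.le_of_dvd (Int.gcd_pos_of_ne_zero_right _ ?_) h1
      positivity
    refine pow_le_pow_left₀ (by positivity) ?_ _
    exact_mod_cast h2

end Pool.Agent.K6.H86.SD
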