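import Pool.Agent.K6.H86.SD.Core
import Pool.Agent.K6.H50.SPF.Core

/-!
# Common divisors of a sparse number and `g ^ N + 1`
-/

set_option autoImplicit false

namespace Pool.Agent.K6.H86.SD

open Pool.Agent.K6.H50.SPF

theorem isCoprime_pow {g N : ℕ} (hN : 1 ≤ N) (w : ℕ) :
    IsCoprime ((g : ℤ) ^ N + 1) ((g : ℤ) ^ w) := by
  apply IsCoprime.pow_right
  refine ⟨1, -(g : ℤ) ^ (N - 1), ?_⟩
  have : (g : ℤ) ^ N = (g : ℤ) ^ (N - 1) * g := by
    rw [← pow_succ]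
    congr 1
    omega
  rw [this]
  ring

/-- The normalized form: `0` is an exponent. -/
theorem gcd_zero {g N Q : ℕ} (hg : 2 ≤ g) (hN : 1 ≤ N) (hQ : 1 ≤ Q) (S : Finset ℕ) (h0 : 0 ∈ S)
    (u : ℕ → ℤ) (d : ℤ) (hE : ¬ Exc (g ^ N) (Q ^ (S.card - 1)))
    (hd1 : d ∣ (g : ℤ) ^ N + 1) (hd2 : d ∣ val g S u) (hn : ¬ (g : ℤ) ^ N + 1 ∣ val g S u) :
    ∃ q : ℕ, 1 ≤ q ∧ q ≤ Q ^ (S.card - 1) ∧
      |d| ≤ wt S u ^ q * (g : ℤ) ^ (2 * (N / Q) + (q - 1)) := by
  classical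
  obtain ⟨q, hq1, hqB, happ⟩ := Pool.Agent.N449.SF.dirichlet N Q (by omega) (by omega) S h0
  refine ⟨q, hq1, hqB, ?_⟩
  choose! α hα using happ
  set L := N / Q with hL
  -- the deviations
  have hdev : ∀ a ∈ S, |(q : ℤ) * a - α a * N| ≤ L := by
    intro a ha
    have h := hα a ha
    have h1 : (Q : ℤ) * |(q : ℤ) * a - α a * N| < N := h
    obtain ⟨t, ht⟩ := Int.eq_ofNat_of_zero_le (abs_nonneg ((q : ℤ) * a - α a * N))
    rw [ht] at h1 ⊢
    have h2 : Q * t < N := by exact_mod_cast h1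
    have h3 : t ≤ N / Q := (Nat.le_div_iff_mul_le (by omega)).2 (by rw [mul_comm]; exact h2.le)
    exact_mod_cast h3
  have hLN : L ≤ N := Nat.div_le_self _ _
  have hdevN : ∀ a ∈ S, |(q : ℤ) * a - α a * N| < N := by
    intro a ha
    have h := hα a ha
    have hQ' : (1 : ℤ) ≤ Q := by exact_mod_cast hQ
    nlinarith [abs_nonneg ((q : ℤ) * a - α a * N)]
  set β : ℕ → ℕ := fun a => (α a - q * ((a / N : ℕ) : ℤ)).toNat with hβ
  have hNZ : (0 : ℤ) < N := by exact_mod_cast (by omega : 0 < N)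
  have hqZ : (1 : ℤ) ≤ q := by exact_mod_cast hq1
  have hdm : ∀ a : ℕ, (a : ℤ) = N * ((a / N : ℕ) : ℤ) + ((a % N : ℕ) : ℤ) := by
    intro a
    exact_mod_cast (Nat.div_add_mod a N).symm
  have hid : ∀ a : ℕ, (q : ℤ) * a - α a * N =
      q * ((a % N : ℕ) : ℤ) - (α a - q * ((a / N : ℕ) : ℤ)) * N := by
    intro a
    conv_lhs => rw [hdm a]
    ring
  have hmodN : ∀ a : ℕ, ((a % N : ℕ) : ℤ) < N := by
    intro a
    exact_mod_cast Nat.mod_lt a (by omega)
  have hβ0 : ∀ a ∈ S, (0 : ℤ) ≤ α a - q * ((a / N : ℕ) : ℤ) := by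
    intro a ha
    have h := (abs_lt.1 (hdevN a ha)).2
    rw [hid a] at h
    have h2 : (0 : ℤ) ≤ ((a % N : ℕ) : ℤ) := by positivity
    by_contra hcon
    have h3 : α a - q * ((a / N : ℕ) : ℤ) ≤ -1 := by omega
    nlinarith
  have hβe : ∀ a ∈ S, ((β a : ℕ) : ℤ) = α a - q * ((a / N : ℕ) : ℤ) := fun a ha =>
    Int.toNat_of_nonneg (hβ0 a ha)
  have hβq : ∀ a ∈ S, β a ≤ q := by
    intro a ha
    have h := (abs_lt.1 (hdevN a ha)).1
    rw [hid a, ← hβe a ha] at h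
    have h2 := hmodN a
    by_contra hcon
    have h3 : (q : ℤ) + 1 ≤ (β a : ℤ) := by exact_mod_cast (by omega : q + 1 ≤ β a)
    nlinarith
  set w : ℕ := (L + (q - 1)) / q with hw
  have hw1 : L ≤ q * w := by
    have h := Nat.div_add_mod (L + (q - 1)) q
    have h2 := Nat.mod_lt (L + (q - 1)) (by omega : 0 < q)
    rw [← hw] at h
    omega
  have hw2 : q * w ≤ L + (q - 1) := Nat.mul_div_le _ _
  have hd3 : d ∣ ∑ a ∈ S, ((-1) ^ (a / N) * u a) * (g : ℤ) ^ (w + a % N) := by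
    have hF : (g : ℤ) ^ N + 1 ∣ (g : ℤ) ^ w * val g S u -
        ∑ a ∈ S, ((-1) ^ (a / N) * u a) * (g : ℤ) ^ (w + a % N) := by
      unfold val
      rw [Finset.mul_sum, ← Finset.sum_sub_distrib]
      refine Finset.dvd_sum fun a _ => ?_
      have h1 : (g : ℤ) ^ a = ((g : ℤ) ^ N) ^ (a / N) * (g : ℤ) ^ (a % N) := by
        rw [← pow_mul, ← pow_add, Nat.div_add_mod]
      have h2 : (g : ℤ) ^ N + 1 ∣ ((g : ℤ) ^ N) ^ (a / N) - (-1) ^ (a / N) := by
        have := sub_dvd_pow_sub_pow ((g : ℤ) ^ N) (-1) (a / N)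
        rwa [sub_neg_eq_add] at this
      obtain ⟨k, hk⟩ := h2
      refine ⟨(g : ℤ) ^ w * u a * k * (g : ℤ) ^ (a % N), ?_⟩
      rw [h1, pow_add]
      linear_combination ((g : ℤ) ^ w * u a * (g : ℤ) ^ (a % N)) * hk
    have h3 : d ∣ (g : ℤ) ^ w * val g S u := Dvd.dvd.mul_left hd2 _
    have h4 := dvd_sub h3 (hd1.trans hF)
    simpa using h4
  have hnF : ¬ (g : ℤ) ^ N + 1 ∣ ∑ a ∈ S, ((-1) ^ (a / N) * u a) * (g : ℤ) ^ (w + a % N) := by
    intro hcon
    apply hn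
    have hF : (g : ℤ) ^ N + 1 ∣ (g : ℤ) ^ w * val g S u -
        ∑ a ∈ S, ((-1) ^ (a / N) * u a) * (g : ℤ) ^ (w + a % N) := by
      unfold val
      rw [Finset.mul_sum, ← Finset.sum_sub_distrib]
      refine Finset.dvd_sum fun a _ => ?_
      have h1 : (g : ℤ) ^ a = ((g : ℤ) ^ N) ^ (a / N) * (g : ℤ) ^ (a % N) := by
        rw [← pow_mul, ← pow_add, Nat.div_add_mod]
      have h2 : (g : ℤ) ^ N + 1 ∣ ((g : ℤ) ^ N) ^ (a / N) - (-1) ^ (a / N) := by
        have := sub_dvd_pow_sub_pow ((g : ℤ) ^ N) (-1) (a / N)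
        rwa [sub_neg_eq_add] at this
      obtain ⟨k, hk⟩ := h2
      refine ⟨(g : ℤ) ^ w * u a * k * (g : ℤ) ^ (a % N), ?_⟩
      rw [h1, pow_add]
      linear_combination ((g : ℤ) ^ w * u a * (g : ℤ) ^ (a % N)) * hk
    have h4 : (g : ℤ) ^ N + 1 ∣ (g : ℤ) ^ w * val g S u := by
      have := dvd_add hF hcon
      simpa using this
    exact (isCoprime_pow hN w).dvd_of_dvd_mul_left h4
  have hgN : 0 < g ^ N := by positivity
  have hirr := irr_nat hgN (by omega : q ≠ 0) hqB hE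
  have key := core (N := N) (q := q) (w := w) (M := 2 * L + (q - 1)) hg (by omega) S
    (fun a => a % N) β (fun a => (-1) ^ (a / N) * u a) d hirr hβq ?_ ?_ hd1 hd3
  · rcases key with h | h
    · exact absurd h hnF
    · have h5 : ∑ a ∈ S, |(-1) ^ (a / N) * u a| = wt S u := by
        unfold wt
        refine Finset.sum_congr rfl fun a _ => ?_
        rw [abs_mul, abs_pow, abs_neg, abs_one, one_pow, one_mul]
      rw [h5] at h
      exact h
  · intro a ha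
    have h := (abs_le.1 (hdev a ha)).1
    rw [hid a, ← hβe a ha] at h
    have h2 : (L : ℤ) ≤ q * w := by exact_mod_cast hw1
    have h3 : ((N * β a : ℕ) : ℤ) ≤ ((q * (w + a % N) : ℕ) : ℤ) := by
      push_cast at h ⊢
      nlinarith
    exact_mod_cast h3
  · intro a ha
    have h := (abs_le.1 (hdev a ha)).2
    rw [hid a, ← hβe a ha] at h
    have h2 : ((q * w : ℕ) : ℤ) ≤ ((L + (q - 1) : ℕ) : ℤ) := by exact_mod_cast hw2
    have h3 : ((q * (w + a % N) : ℕ) : ℤ) ≤ ((2 * L + (q - 1) + N * β a : ℕ) : ℤ) := by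
      push_cast at h h2 ⊢
      nlinarith
    exact_mod_cast h3

/-- Common divisors of `g ^ N + 1` and a number with few digits. -/
theorem gcd_bound {g N Q : ℕ} (hg : 2 ≤ g) (hN : 1 ≤ N) (hQ : 1 ≤ Q) (S : Finset ℕ)
    (u : ℕ → ℤ) (d : ℤ) (hE : ¬ Exc (g ^ N) (Q ^ (S.card - 1)))
    (hd1 : d ∣ (g : ℤ) ^ N + 1) (hd2 : d ∣ val g S u) (hn : ¬ (g : ℤ) ^ N + 1 ∣ val g S u) :
    ∃ q : ℕ, 1 ≤ q ∧ q ≤ Q ^ (S.card - 1) ∧
      |d| ≤ wt S u ^ q * (g : ℤ) ^ (2 * (N / Q) + (q - 1)) := by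
  classical
  rcases S.eq_empty_or_nonempty with rfl | hne
  · exact absurd (by simp [val]) hn
  set m := S.min' hne with hm
  have hmS : m ∈ S := S.min'_mem hne
  have hle : ∀ a ∈ S, m ≤ a := fun a ha => S.min'_le a ha
  set T := S.image (fun a => a - m) with hT
  have hinj : Set.InjOn (fun a => a - m) (S : Set ℕ) := by
    intro a ha b hb hab
    have h1 := hle a ha
    have h2 := hle b hb
    simp only at hab
    omega
  have hcard : T.card = S.card := Finset.card_image_of_injOn hinj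
  have h0 : 0 ∈ T := Finset.mem_image.2 ⟨m, hmS, Nat.sub_self m⟩
  have hval : val g S u = (g : ℤ) ^ m * val g T (fun b => u (b + m)) := by
    unfold val
    rw [hT, Finset.sum_image hinj, Finset.mul_sum]
    refine Finset.sum_congr rfl fun a ha => ?_
    beta_reduce
    rw [Nat.sub_add_cancel (hle a ha)]
    have : (g : ℤ) ^ a = (g : ℤ) ^ m * (g : ℤ) ^ (a - m) := by
      rw [← pow_add, Nat.add_sub_cancel' (hle a ha)]
    rw [this]
    ring
  have hwt : wt S u = wt T (fun b => u (b + m)) := by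
    unfold wt
    rw [hT, Finset.sum_image hinj]
    refine Finset.sum_congr rfl fun a ha => ?_
    beta_reduce
    rw [Nat.sub_add_cancel (hle a ha)]
  have hd3 : d ∣ val g T (fun b => u (b + m)) := by
    rw [hval] at hd2
    have hc : IsCoprime d ((g : ℤ) ^ m) := IsCoprime.of_isCoprime_of_dvd_left (isCoprime_pow hN m) hd1
    exact hc.dvd_of_dvd_mul_left hd2
  have hn3 : ¬ (g : ℤ) ^ N + 1 ∣ val g T (fun b => u (b + m)) := by
    intro hcon
    apply hn
    rw [hval]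
    exact Dvd.dvd.mul_left hcon _
  rw [← hcard] at hE ⊢
  rw [hwt]
  exact gcd_zero hg hN hQ T h0 _ d hE hd1 hd3 hn3

/-- The main inequality. -/
theorem main {g N Q : ℕ} (hg : 2 ≤ g) (hN : 1 ≤ N) (hQ : 1 ≤ Q) (S : Finset ℕ)
    (u : ℕ → ℤ) (d : ℤ) (hE : ¬ Exc (g ^ N) (Q ^ (S.card - 1)))
    (hd1 : d ∣ (g : ℤ) ^ N + 1) (hd2 : d ∣ val g S u) (hn : ¬ (g : ℤ) ^ N + 1 ∣ val g S u) :
    |d| ^ Q ≤ (g * wt S u) ^ (Q ^ S.card) * (g : ℤ) ^ (2 * N) := by
  obtain ⟨q, hq1, hqB, hle⟩ := gcd_bound hg hN hQ S u d hE hd1 hd2 hn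
  have hne : S.Nonempty := by
    rw [Finset.nonempty_iff_ne_empty]
    rintro rfl
    exact hn (by simp [val])
  have hs : 1 ≤ S.card := hne.card_pos
  have hg1 : (1 : ℤ) ≤ g := by exact_mod_cast (by omega : 1 ≤ g)
  have hw0 : 0 ≤ wt S u := wt_nonneg S u
  have hw1 : 1 ≤ wt S u := by
    by_contra hcon
    have hz : wt S u = 0 := by omega
    apply hn
    have : val g S u = 0 := by
      unfold val
      refine Finset.sum_eq_zero fun a ha => ?_
      have h1 : |u a| = 0 := by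
        unfold wt at hz
        exact (Finset.sum_eq_zero_iff_of_nonneg (fun _ _ => abs_nonneg _)).1 hz a ha
      rw [abs_eq_zero.1 h1, zero_mul]
    rw [this]
    exact dvd_zero _
  have hgw : (1 : ℤ) ≤ g * wt S u := by nlinarith
  calc |d| ^ Q ≤ (wt S u ^ q * (g : ℤ) ^ (2 * (N / Q) + (q - 1))) ^ Q :=
        pow_le_pow_left₀ (abs_nonneg _) hle Q
    _ ≤ (wt S u ^ q * ((g : ℤ) ^ q * (g : ℤ) ^ (2 * (N / Q)))) ^ Q := by
        refine pow_le_pow_left₀ (by positivity) (mul_le_mul_of_nonneg_left ?_ (by positivity)) Q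
        rw [← pow_add]
        exact pow_le_pow_right₀ hg1 (by omega)
    _ = (g * wt S u) ^ (q * Q) * (g : ℤ) ^ (2 * ((N / Q) * Q)) := by
        rw [← mul_assoc, ← mul_pow, mul_pow, ← pow_mul, ← pow_mul, mul_comm (wt S u)]
        congr 2
        ring
    _ ≤ (g * wt S u) ^ (Q ^ S.card) * (g : ℤ) ^ (2 * N) := by
        refine mul_le_mul (pow_le_pow_right₀ hgw ?_) (pow_le_pow_right₀ hg1 ?_) (by positivity)
          (by positivity)
        · calc q * Q ≤ Q ^ (S.card - 1) * Q := Nat.mul_le_mul_right _ hqB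
            _ = Q ^ S.card := by
              rw [← pow_succ]
              congr 1
              omega
        · exact Nat.mul_le_mul_left _ (Nat.div_mul_le_self N Q)

end Pool.Agent.K6.H86.SD
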